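import Pool.Agent.H91.RF.TargetsR
import Pool.Agent.H35.RD.Base

/-!
# MP_609556_an: helper29's lemmas on one-dimensional solutions
-/

open MeasureTheory Set Filter Topology Metric
open Pool.Agent.H29.TF (hk P)
open Pool.Agent.H91.RD Pool.Agent.H91.RF

namespace Pool.Agent.H29.RF

/-- the point of `ℝ^1` with coordinate `z` -/
noncomputable def pt1 (z : ℝ) : E 1 := WithLp.toLp 2 (fun _ => z)

theorem pt1_apply (z : ℝ) : pt1 z 0 = z := rfl

theorem dist_E1 (x y : E 1) : dist x y = |x 0 - y 0| := by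
  rw [EuclideanSpace.dist_eq, Fin.sum_univ_one, Real.sqrt_sq_eq_abs, Real.dist_eq, abs_abs]

theorem continuous_pt1 : Continuous pt1 := by
  unfold pt1
  fun_prop

theorem pt1_eta (x : E 1) : pt1 (x 0) = x := by
  ext i
  have : i = 0 := Subsingleton.elim _ _
  rw [this]
  rfl

/-- restriction of a mild solution to a later starting time -/
theorem mild_restrict {N : ℕ} {f : ℝ → ℝ} {a a' : ℝ} {w : ℝ → E N → ℝ} (h : Mild f a w)
    (ha : a ≤ a') : Mild f a' w where
  bdd := by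
    obtain ⟨M, hM⟩ := h.bdd
    exact ⟨M, fun t ht x => hM t (ha.trans ht) x⟩
  meas := Pool.Agent.H35.RD.mild_meas h ha
  cont := h.cont.mono (prod_mono (Ioi_subset_Ioi ha) (subset_refl _))
  duh := fun s t hs hst x => h.duh s t (ha.trans hs) hst x

section dec
variable {q : ℝ → ℝ}

theorem dec_anti (hn : ∀ z, deriv q z < 0) : StrictAnti q := strictAnti_of_deriv_neg hn

theorem dec_pos (hn : ∀ z, deriv q z < 0) (ht : Tendsto q atTop (𝓝 0)) (z : ℝ) : 0 < q z := by
  have h1 : q (z + 1) < q z := dec_anti hn (by linarith)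
  have h2 : 0 ≤ q (z + 1) := (dec_anti hn).antitone.le_of_tendsto ht (z + 1)
  linarith

theorem dec_lt_one (hn : ∀ z, deriv q z < 0) (hb : Tendsto q atBot (𝓝 1)) (z : ℝ) : q z < 1 := by
  have h1 : q z < q (z - 1) := dec_anti hn (by linarith)
  have h2 : q (z - 1) ≤ 1 := (dec_anti hn).antitone.ge_of_tendsto hb (z - 1)
  linarith

theorem dec_surj (hc : Continuous q) (ht : Tendsto q atTop (𝓝 0)) (hb : Tendsto q atBot (𝓝 1))
    {s : ℝ} (hs : s ∈ Ioo (0 : ℝ) 1) : ∃ z, q z = s := by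
  have h1 : ∃ a, q a ≤ s := by
    obtain ⟨a, ha⟩ := (ht.eventually (gt_mem_nhds hs.1)).exists
    exact ⟨a, ha.le⟩
  have h2 : ∃ a, s ≤ q a := by
    obtain ⟨a, ha⟩ := (hb.eventually (lt_mem_nhds hs.2)).exists
    exact ⟨a, ha.le⟩
  exact mem_range_of_exists_le_of_exists_ge hc h1 h2

end dec

end Pool.Agent.H29.RF
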