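import Pool.Agent.H29.RF.Base
import Pool.Agent.H35.RD.REG

/-!
# MP_609556_an, module LGS: the one-dimensional solution with logistic datum
-/

open MeasureTheory Set Filter Topology Metric
open Pool.Agent.H29.TF (hk P)
open Pool.Agent.H91.RD Pool.Agent.H91.RF

namespace Pool.Agent.H29.RF.LGS

/-! ### The logistic function -/

theorem lgs_mem (k z : ℝ) : 0 < lgs k z ∧ lgs k z < 1 := by
  unfold lgs
  have h := Real.exp_pos (k * z)
  constructor
  · positivity
  · exact inv_lt_one_of_one_lt₀ (by linarith)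

theorem hasDerivAt_lgs (k z : ℝ) : HasDerivAt (lgs k) (-(k * (lgs k z * (1 - lgs k z)))) z := by
  have h := Real.exp_pos (k * z)
  have h1 : HasDerivAt (fun z => 1 + Real.exp (k * z)) (Real.exp (k * z) * k) z := by
    have h2 : HasDerivAt (fun z => k * z) k z := by
      simpa using (hasDerivAt_id z).const_mul k
    exact (h2.exp).const_add 1
  have h2 := h1.inv (by linarith)
  have h3 : -(Real.exp (k * z) * k) / (1 + Real.exp (k * z)) ^ 2 =
      -(k * (lgs k z * (1 - lgs k z))) := by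
    unfold lgs
    field_simp
    ring
  rw [← h3]
  exact h2

theorem continuous_lgs (k : ℝ) : Continuous (lgs k) :=
  continuous_iff_continuousAt.2 fun z => (hasDerivAt_lgs k z).continuousAt

theorem lgs_low {k : ℝ} (hk : 0 ≤ k) (z : ℝ) :
    1 / 4 * Real.exp (-(k * |z|)) ≤ lgs k z * (1 - lgs k z) := by
  have h := Real.exp_pos (k * z)
  have h1 : lgs k z * (1 - lgs k z) = Real.exp (k * z) / (1 + Real.exp (k * z)) ^ 2 := by
    unfold lgs
    field_simp
    ring
  rw [h1, le_div_iff₀ (by positivity)]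
  rcases le_total 0 z with hz | hz
  · rw [abs_of_nonneg hz, Real.exp_neg]
    have h2 : 1 ≤ Real.exp (k * z) := Real.one_le_exp (mul_nonneg hk hz)
    have h3 : 1 / 4 * (Real.exp (k * z))⁻¹ * (1 + Real.exp (k * z)) ^ 2 ≤
        1 / 4 * (Real.exp (k * z))⁻¹ * (2 * Real.exp (k * z)) ^ 2 := by
      apply mul_le_mul_of_nonneg_left _ (by positivity)
      apply pow_le_pow_left₀ (by positivity)
      linarith
    refine h3.trans (le_of_eq ?_)
    field_simp
    ring
  · rw [abs_of_nonpos hz, show -(k * -z) = k * z by ring]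
    have h2 : Real.exp (k * z) ≤ 1 := by
      rw [Real.exp_le_one_iff]
      exact mul_nonpos_of_nonneg_of_nonpos hk hz
    have h3 : (1 + Real.exp (k * z)) ^ 2 ≤ 4 := by nlinarith
    have h4 := mul_le_mul_of_nonneg_left h3 (show 0 ≤ 1 / 4 * Real.exp (k * z) by positivity)
    linarith

theorem lgs_up {k : ℝ} (hk : 0 ≤ k) (z : ℝ) : |-(k * (lgs k z * (1 - lgs k z)))| ≤ k := by
  have h := lgs_mem k z
  rw [abs_neg, abs_of_nonneg (mul_nonneg hk (mul_nonneg h.1.le (by linarith)))]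
  have h1 : lgs k z * (1 - lgs k z) ≤ 1 := by nlinarith
  nlinarith

theorem lgs_lip {k : ℝ} (hk : 0 ≤ k) (a b : ℝ) : |lgs k a - lgs k b| ≤ k * |a - b| := by
  have h1 := Convex.norm_image_sub_le_of_norm_hasDerivWithin_le (f := lgs k)
    (f' := fun z => -(k * (lgs k z * (1 - lgs k z)))) (s := univ) (C := k)
    (fun x _ => (hasDerivAt_lgs k x).hasDerivWithinAt) (fun x _ => lgs_up hk x) convex_univ
    (mem_univ b) (mem_univ a)
  exact h1

theorem dlgs_lip {k : ℝ} (hk : 0 ≤ k) (a b : ℝ) :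
    |-(k * (lgs k a * (1 - lgs k a))) - -(k * (lgs k b * (1 - lgs k b)))| ≤ k ^ 2 * |a - b| := by
  have h1 := lgs_lip hk a b
  have ha := lgs_mem k a
  have hb := lgs_mem k b
  have h2 : -(k * (lgs k a * (1 - lgs k a))) - -(k * (lgs k b * (1 - lgs k b))) =
      k * (lgs k a - lgs k b) * (lgs k a + lgs k b - 1) := by ring
  rw [h2, abs_mul, abs_mul, abs_of_nonneg hk]
  have h3 : |lgs k a + lgs k b - 1| ≤ 1 := by
    rw [abs_le]; constructor <;> linarith [ha.1, ha.2, hb.1, hb.2]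
  calc k * |lgs k a - lgs k b| * |lgs k a + lgs k b - 1| ≤ k * (k * |a - b|) * 1 := by
        apply mul_le_mul (mul_le_mul_of_nonneg_left h1 hk) h3 (abs_nonneg _) (by positivity)
    _ = k ^ 2 * |a - b| := by ring

/-- lower bound of the increments -/
theorem lgs_inc {k h : ℝ} (hk : 0 ≤ k) (hh : 0 < h) (z : ℝ) :
    h * (k * (1 / 4 * Real.exp (-(k * (|z| + h))))) ≤ lgs k z - lgs k (z + h) := by
  obtain ⟨c, hc, hc2⟩ := exists_hasDerivAt_eq_slope (lgs k)
    (fun z => -(k * (lgs k z * (1 - lgs k z)))) (show z < z + h by linarith)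
    (continuous_lgs k).continuousOn (fun x _ => hasDerivAt_lgs k x)
  have h1 : lgs k z - lgs k (z + h) = h * (k * (lgs k c * (1 - lgs k c))) := by
    rw [add_sub_cancel_left, eq_div_iff hh.ne'] at hc2
    linarith
  rw [h1]
  apply mul_le_mul_of_nonneg_left _ hh.le
  apply mul_le_mul_of_nonneg_left _ hk
  refine le_trans ?_ (lgs_low hk c)
  apply mul_le_mul_of_nonneg_left _ (by norm_num)
  apply Real.exp_le_exp.2
  have h2 : |c| ≤ |z| + h := by
    have h3 : |c| ≤ |z| + |c - z| := by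
      have := abs_add_le z (c - z)
      rwa [add_sub_cancel] at this
    have h4 : |c - z| ≤ h := by
      rw [abs_le]; constructor <;> linarith [hc.1, hc.2]
    linarith
  nlinarith

/-- Lipschitz bound of the increments -/
theorem lgs_inc_lip {k h : ℝ} (hk : 0 ≤ k) (hh : 0 < h) (a b : ℝ) :
    |(lgs k (a + h) - lgs k a) - (lgs k (b + h) - lgs k b)| ≤ k ^ 2 * h * |a - b| := by
  have h0 : ∀ x, HasDerivAt (fun a => lgs k (a + h) - lgs k a)
      (-(k * (lgs k (x + h) * (1 - lgs k (x + h)))) - -(k * (lgs k x * (1 - lgs k x)))) x :=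
    fun x => ((hasDerivAt_lgs k (x + h)).comp_add_const x h).sub (hasDerivAt_lgs k x)
  have h1 := Convex.norm_image_sub_le_of_norm_hasDerivWithin_le
    (f := fun a => lgs k (a + h) - lgs k a) (s := univ) (C := k ^ 2 * h)
    (fun x _ => (h0 x).hasDerivWithinAt)
    (fun x _ => by
      have h2 := dlgs_lip hk (x + h) x
      rw [add_sub_cancel_left, abs_of_nonneg hh.le] at h2
      exact h2) convex_univ (mem_univ b) (mem_univ a)
  exact h1

/-! ### Differences of mild solutions -/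

section diff
variable {N : ℕ} {f : ℝ → ℝ} {K : ℝ} {w1 w2 : ℝ → E N → ℝ}

theorem diff_duh (hK : Lip f K) (h1 : Mild f 0 w1) (h2 : Mild f 0 w2) {t : ℝ} (ht : 0 < t)
    (x : E N) : w1 t x - w2 t x = P t (fun y => w1 0 y - w2 0 y) x +
      ∫ q in (0 : ℝ)..t, P (t - q) (fun y => f (w1 q y) - f (w2 q y)) x := by
  obtain ⟨M1, hM1⟩ := h1.bdd
  obtain ⟨M2, hM2⟩ := h2.bdd
  have e1 := h1.duh 0 t le_rfl ht x
  have e2 := h2.duh 0 t le_rfl ht x
  have i1 := Pool.Agent.H35.RD.ii_mild hK h1 le_rfl ht.le x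
  have i2 := Pool.Agent.H35.RD.ii_mild hK h2 le_rfl ht.le x
  rw [sub_zero] at e1 e2
  rw [e1, e2, Pool.Agent.H29.TF.P_sub x
    (Pool.Agent.H29.TF.integrable_hk_mul ht h1.meas.aestronglyMeasurable (hM1 0 le_rfl) x)
    (Pool.Agent.H29.TF.integrable_hk_mul ht h2.meas.aestronglyMeasurable (hM2 0 le_rfl) x)]
  have h3 : ∫ q in (0 : ℝ)..t, P (t - q) (fun y => f (w1 q y) - f (w2 q y)) x =
      (∫ q in (0 : ℝ)..t, P (t - q) (fun y => f (w1 q y)) x) -
        ∫ q in (0 : ℝ)..t, P (t - q) (fun y => f (w2 q y)) x := by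
    rw [← intervalIntegral.integral_sub i1 i2]
    apply intervalIntegral.integral_congr_ae
    have hne : ∀ᵐ q : ℝ, q ≠ t := by
      rw [ae_iff]
      have : {a : ℝ | ¬ a ≠ t} = {t} := by ext q; simp
      rw [this]
      exact Real.volume_singleton
    filter_upwards [hne] with q hqt hq
    rw [uIoc_of_le ht.le] at hq
    have hlt : 0 < t - q := by
      have := lt_of_le_of_ne hq.2 hqt
      linarith
    have b1 : ∀ y, |f (w1 q y)| ≤ K * M1 := fun y =>
      (hK.abs_le _).trans (mul_le_mul_of_nonneg_left (hM1 q hq.1.le y) hK.K0.le)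
    have b2 : ∀ y, |f (w2 q y)| ≤ K * M2 := fun y =>
      (hK.abs_le _).trans (mul_le_mul_of_nonneg_left (hM2 q hq.1.le y) hK.K0.le)
    exact Pool.Agent.H29.TF.P_sub (f := fun y => f (w1 q y)) (g := fun y => f (w2 q y)) x
      (Pool.Agent.H29.TF.integrable_hk_mul hlt (hK.continuous.comp
        (Pool.Agent.H35.RD.mild_slice h1 hq.1)).aestronglyMeasurable b1 x)
      (Pool.Agent.H29.TF.integrable_hk_mul hlt (hK.continuous.comp
        (Pool.Agent.H35.RD.mild_slice h2 hq.1)).aestronglyMeasurable b2 x)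
  rw [h3]
  ring

/-- lower bound of an ordered difference -/
theorem diff_low (hSH : T_SH) (hK : Lip f K) (h1 : Mild f 0 w1) (h2 : Mild f 0 w2)
    (r1 : Rng 0 w1) (r2 : Rng 0 w2) (hle : ∀ t ≥ 0, ∀ x, w2 t x ≤ w1 t x) {t : ℝ} (ht : 0 < t)
    (x : E N) :
    Real.exp (-(K * t)) * P t (fun y => w1 0 y - w2 0 y) x ≤ w1 t x - w2 t x := by
  have h3 := hSH N K (1 + K) 0 t (fun r y => w1 r y - w2 r y)
    (fun r y => f (w1 r y) - f (w2 r y)) ht (h1.meas.sub h2.meas)
    (by
      intro r hr y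
      have a1 := r1 r hr.1 y
      have a2 := r2 r hr.1 y
      rw [abs_le]
      constructor <;> linarith [a1.1, a1.2, a2.1, a2.2, hK.K0])
    (by
      intro r hr y
      have a1 := r1 r hr.1 y
      have a2 := r2 r hr.1 y
      have a3 : |w1 r y - w2 r y| ≤ 1 := by
        rw [abs_le]
        constructor <;> linarith [a1.1, a1.2, a2.1, a2.2]
      refine (hK.lip _ _).trans ?_
      nlinarith [hK.K0])
    ((h1.cont.mono (prod_mono (fun r hr => hr.1) (subset_refl _))).sub
      (h2.cont.mono (prod_mono (fun r hr => hr.1) (subset_refl _))))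
    (((hK.continuous.comp_continuousOn h1.cont).sub (hK.continuous.comp_continuousOn h2.cont)).mono
      (prod_mono (fun r hr => hr.1) (subset_refl _)))
    (by
      intro r hr y
      have h4 := diff_duh hK h1 h2 hr.1 y
      rw [sub_zero]
      exact h4)
    t ⟨ht, le_rfl⟩ x
  have h4 : 0 ≤ ∫ q in (0 : ℝ)..t, Real.exp (-(K * (t - q))) *
      P (t - q) (fun y => f (w1 q y) - f (w2 q y) + K * (w1 q y - w2 q y)) x := by
    apply intervalIntegral.integral_nonneg ht.le
    intro q hq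
    apply mul_nonneg (Real.exp_pos _).le
    apply Pool.Agent.H29.TF.P_nonneg (by linarith [hq.2])
    intro y
    have h5 := hle q hq.1 y
    have h6 := hK.lip (w1 q y) (w2 q y)
    rw [abs_of_nonneg (show 0 ≤ w1 q y - w2 q y by linarith)] at h6
    have h7 := neg_abs_le (f (w1 q y) - f (w2 q y))
    linarith
  have h5 : w1 t x - w2 t x = Real.exp (-(K * (t - 0))) *
      P (t - 0) (fun y => w1 0 y - w2 0 y) x + ∫ q in (0 : ℝ)..t, Real.exp (-(K * (t - q))) *
      P (t - q) (fun y => f (w1 q y) - f (w2 q y) + K * (w1 q y - w2 q y)) x := h3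
  rw [sub_zero] at h5
  linarith

theorem P_const_le {t : ℝ} (ht : 0 < t) {g : E N → ℝ} {C : ℝ}
    (hC : ∀ y, |g y| ≤ C) (x : E N) : P t g x ≤ C :=
  (le_abs_self _).trans (Pool.Agent.H29.TF.abs_P_le ht hC x)

/-- upper bound of a difference -/
theorem diff_up (hCMP : T_CMP) (hK : Lip f K) (h1 : Mild f 0 w1) (h2 : Mild f 0 w2) {C : ℝ}
    (hC : 0 ≤ C) (h0 : ∀ y, |w1 0 y - w2 0 y| ≤ C) {t : ℝ} (ht : 0 < t) (x : E N) :
    |w1 t x - w2 t x| ≤ Real.exp (K * t) * C := by
  have key : ∀ w1 w2 : ℝ → E N → ℝ, Mild f 0 w1 → Mild f 0 w2 → (∀ y, |w1 0 y - w2 0 y| ≤ C) →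
      w1 t x - w2 t x ≤ Real.exp (K * t) * C := by
    intro w1 w2 h1 h2 h0
    have h3 := hCMP N f K K 0 0 t w1 w2 hK le_rfl ht h1 h2 (by
      intro r _ y hy
      have h4 := hK.lip (w1 r y) (w2 r y)
      rw [abs_of_pos (show 0 < w1 r y - w2 r y by linarith)] at h4
      exact (le_abs_self _).trans h4) x
    rw [sub_zero] at h3
    refine h3.trans (mul_le_mul_of_nonneg_left ?_ (Real.exp_pos _).le)
    apply P_const_le ht
    intro y
    rw [abs_of_nonneg (le_max_right _ _)]
    exact max_le ((le_abs_self _).trans (h0 y)) hC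
  rw [abs_le]
  constructor
  · have := key w2 w1 h2 h1 (fun y => by rw [abs_sub_comm]; exact h0 y)
    linarith
  · exact key w1 w2 h1 h2 h0

theorem ii_sqrt {t : ℝ} (ht : 0 < t) :
    IntervalIntegrable (fun r : ℝ => 1 / √(t - r)) volume 0 t ∧
      ∫ r in (0 : ℝ)..t, 1 / √(t - r) = 2 * √t := by
  constructor
  · have h1 : IntervalIntegrable (fun r : ℝ => r ^ (-(1 / 2) : ℝ)) volume 0 t :=
      intervalIntegral.intervalIntegrable_rpow' (by norm_num)
    have h2 := h1.comp_sub_left t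
    simp only [sub_zero, sub_self] at h2
    refine h2.symm.congr (fun r hr => ?_)
    rw [uIoc_of_le ht.le] at hr
    show (t - r) ^ (-(1 / 2) : ℝ) = 1 / √(t - r)
    rw [Real.rpow_neg (by linarith [hr.2]), Real.sqrt_eq_rpow, one_div ((t - r) ^ (1 / 2 : ℝ))]
  · have h1 : ∫ r in (0 : ℝ)..t, 1 / √(t - r) = ∫ r in (0 : ℝ)..t, (t - r) ^ (-(1 / 2) : ℝ) := by
      apply intervalIntegral.integral_congr
      intro r hr
      rw [uIcc_of_le ht.le] at hr
      show 1 / √(t - r) = (t - r) ^ (-(1 / 2) : ℝ)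
      rw [Real.rpow_neg (by linarith [hr.2]), Real.sqrt_eq_rpow, one_div]
    rw [h1, intervalIntegral.integral_comp_sub_left (fun r => r ^ (-(1 / 2) : ℝ)) t,
      integral_rpow (Or.inl (by norm_num)), sub_self, sub_zero]
    have h2 : (-(1 / 2) + 1 : ℝ) = 1 / 2 := by norm_num
    rw [h2, Real.zero_rpow (by norm_num), sub_zero, Real.sqrt_eq_rpow]
    ring

/-- the heat semigroup preserves Lipschitz bounds -/
theorem P_lip {t : ℝ} (ht : 0 < t) {g : E N → ℝ} {C L : ℝ} (hg : AEStronglyMeasurable g volume)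
    (hC : ∀ y, |g y| ≤ C) (hl : ∀ x y, |g x - g y| ≤ L * ‖x - y‖) (x y : E N) :
    |P t g x - P t g y| ≤ L * ‖x - y‖ := by
  rw [Pool.Agent.H29.TF.P_eq_conv, Pool.Agent.H29.TF.P_eq_conv]
  have hi : ∀ x : E N, Integrable (fun z => hk t z * g (x - z)) := by
    intro x
    have h1 := (Pool.Agent.H29.TF.integrable_hk_mul ht hg hC x).comp_sub_left x
    simpa using h1
  rw [← integral_sub (hi x) (hi y), ← Real.norm_eq_abs]
  have h1 : ‖∫ z, (hk t z * g (x - z) - hk t z * g (y - z))‖ ≤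
      ∫ z : E N, hk t z * (L * ‖x - y‖) := by
    apply norm_integral_le_of_norm_le ((Pool.Agent.H29.TF.integrable_hk ht).mul_const _)
    refine Eventually.of_forall fun z => ?_
    rw [← mul_sub, norm_mul, Real.norm_of_nonneg (Pool.Agent.H29.TF.hk_nonneg ht.le _),
      Real.norm_eq_abs]
    apply mul_le_mul_of_nonneg_left _ (Pool.Agent.H29.TF.hk_nonneg ht.le _)
    have h2 := hl (x - z) (y - z)
    rwa [sub_sub_sub_cancel_right] at h2
  rwa [integral_mul_const, Pool.Agent.H29.TF.integral_hk ht, one_mul] at h1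

/-- Lipschitz bound of a difference -/
theorem diff_lip {A : ℝ}
    (hgrad : ∀ t > 0, ∀ (g : E N → ℝ) (M : ℝ), AEStronglyMeasurable g volume → (∀ y, |g y| ≤ M) →
      ∀ x y, |P t g x - P t g y| ≤ A * M / √t * ‖x - y‖)
    (hK : Lip f K) (h1 : Mild f 0 w1) (h2 : Mild f 0 w2) {C B L : ℝ}
    (h0 : ∀ y, |w1 0 y - w2 0 y| ≤ C)
    (hl : ∀ x y, |(w1 0 x - w2 0 x) - (w1 0 y - w2 0 y)| ≤ L * ‖x - y‖) {t : ℝ} (ht : 0 < t)
    (hB : ∀ q, 0 < q → q ≤ t → ∀ y, |w1 q y - w2 q y| ≤ B) (x y : E N) :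
    |(w1 t x - w2 t x) - (w1 t y - w2 t y)| ≤ (L + A * (K * B) * (2 * √t)) * ‖x - y‖ := by
  obtain ⟨M1, hM1⟩ := h1.bdd
  obtain ⟨M2, hM2⟩ := h2.bdd
  have hfb : ∀ q, 0 < q → q ≤ t → ∀ y, |f (w1 q y) - f (w2 q y)| ≤ K * B := fun q hq hq2 y =>
    (hK.lip _ _).trans (mul_le_mul_of_nonneg_left (hB q hq hq2 y) hK.K0.le)
  have hcont : ContinuousOn (fun p : ℝ × E N => f (w1 p.1 p.2) - f (w2 p.1 p.2))
      (Ioo 0 t ×ˢ univ) :=
    ((hK.continuous.comp_continuousOn h1.cont).sub (hK.continuous.comp_continuousOn h2.cont)).mono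
      (prod_mono (fun r hr => hr.1) (subset_refl _))
  have hii : ∀ x, IntervalIntegrable (fun q => P (t - q) (fun y => f (w1 q y) - f (w2 q y)) x)
      volume 0 t := fun x => Pool.Agent.H35.RD.ii_duh (M := K * B) ht.le
    (fun r hr y => hfb r hr.1 hr.2.le y) hcont x
  rw [diff_duh hK h1 h2 ht x, diff_duh hK h1 h2 ht y]
  have b1 : |P t (fun y => w1 0 y - w2 0 y) x - P t (fun y => w1 0 y - w2 0 y) y| ≤ L * ‖x - y‖ :=
    P_lip ht (h1.meas.sub h2.meas).aestronglyMeasurable h0 hl x y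
  have b2 : |(∫ q in (0 : ℝ)..t, P (t - q) (fun y => f (w1 q y) - f (w2 q y)) x) -
      ∫ q in (0 : ℝ)..t, P (t - q) (fun y => f (w1 q y) - f (w2 q y)) y| ≤
      2 * √t * (A * (K * B) * ‖x - y‖) := by
    rw [← intervalIntegral.integral_sub (hii x) (hii y)]
    have hne : ∀ᵐ q : ℝ, q ≠ t := by
      rw [ae_iff]
      have : {a : ℝ | ¬ a ≠ t} = {t} := by ext q; simp
      rw [this]
      exact Real.volume_singleton
    have h3 : ∀ᵐ q, q ∈ Ioc 0 t →
        ‖P (t - q) (fun y => f (w1 q y) - f (w2 q y)) x -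
          P (t - q) (fun y => f (w1 q y) - f (w2 q y)) y‖ ≤
          1 / √(t - q) * (A * (K * B) * ‖x - y‖) := by
      filter_upwards [hne] with q hqt hq2
      have hlt : q < t := lt_of_le_of_ne hq2.2 hqt
      have := hgrad (t - q) (by linarith) (fun y => f (w1 q y) - f (w2 q y)) (K * B)
        ((hK.continuous.comp (Pool.Agent.H35.RD.mild_slice h1 hq2.1)).sub
          (hK.continuous.comp (Pool.Agent.H35.RD.mild_slice h2 hq2.1))).aestronglyMeasurable
        (hfb q hq2.1 hq2.2) x y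
      rw [Real.norm_eq_abs]
      refine this.trans (le_of_eq ?_)
      ring
    have h4 := intervalIntegral.norm_integral_le_of_norm_le ht.le h3
      ((ii_sqrt ht).1.mul_const _)
    rw [intervalIntegral.integral_mul_const, (ii_sqrt ht).2] at h4
    exact h4
  have e3 : P t (fun y => w1 0 y - w2 0 y) x +
        (∫ q in (0 : ℝ)..t, P (t - q) (fun y => f (w1 q y) - f (w2 q y)) x) -
      (P t (fun y => w1 0 y - w2 0 y) y +
        ∫ q in (0 : ℝ)..t, P (t - q) (fun y => f (w1 q y) - f (w2 q y)) y) =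
      (P t (fun y => w1 0 y - w2 0 y) x - P t (fun y => w1 0 y - w2 0 y) y) +
      ((∫ q in (0 : ℝ)..t, P (t - q) (fun y => f (w1 q y) - f (w2 q y)) x) -
        ∫ q in (0 : ℝ)..t, P (t - q) (fun y => f (w1 q y) - f (w2 q y)) y) := by ring
  rw [e3]
  calc _ ≤ _ := abs_add_le _ _
    _ ≤ L * ‖x - y‖ + 2 * √t * (A * (K * B) * ‖x - y‖) := add_le_add b1 b2
    _ = _ := by ring

end diff

/-- lower bound for the heat semigroup on an exponential -/
theorem P_exp_low {A : ℝ} (hA : ∀ t > 0, Integrable (fun z : E 1 => hk t z * ‖z‖) ∧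
      ∫ z : E 1, hk t z * ‖z‖ ≤ A * √t) {k t : ℝ} (hk0 : 0 ≤ k) (ht : 0 < t) (x : E 1) :
    Real.exp (-(k * |x 0|)) * Real.exp (-(k * (A * √t))) ≤
      P t (fun y : E 1 => Real.exp (-(k * |y 0|))) x := by
  rw [Pool.Agent.H29.TF.P_eq_conv]
  have hi : Integrable (fun z : E 1 => hk t z * Real.exp (-(k * |(x - z) 0|))) := by
    refine (Pool.Agent.H29.TF.integrable_hk ht).mul_bdd (c := 1)
      (Continuous.aestronglyMeasurable (by fun_prop)) (Eventually.of_forall fun z => ?_)
    rw [Real.norm_of_nonneg (Real.exp_pos _).le, Real.exp_le_one_iff]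
    have := mul_nonneg hk0 (abs_nonneg ((x - z) 0))
    linarith
  set m := k * (A * √t) with hm
  have hi2 : Integrable (fun z : E 1 => Real.exp (-(k * |x 0|)) * Real.exp (-m) *
      ((1 + m) * hk t z - k * (hk t z * ‖z‖))) :=
    (((Pool.Agent.H29.TF.integrable_hk ht).const_mul _).sub ((hA t ht).1.const_mul k)).const_mul _
  have h1 : ∫ z : E 1, Real.exp (-(k * |x 0|)) * Real.exp (-m) *
      ((1 + m) * hk t z - k * (hk t z * ‖z‖)) ≤
      ∫ z : E 1, hk t z * Real.exp (-(k * |(x - z) 0|)) := by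
    apply integral_mono hi2 hi
    intro z
    show Real.exp (-(k * |x 0|)) * Real.exp (-m) * ((1 + m) * hk t z - k * (hk t z * ‖z‖)) ≤
      hk t z * Real.exp (-(k * |(x - z) 0|))
    have h2 : |(x - z) 0| ≤ |x 0| + ‖z‖ := by
      have h3 : ‖z‖ = |z 0| := by
        have := dist_E1 z 0
        rw [dist_zero_right] at this
        simpa using this
      rw [h3]
      exact abs_sub (x 0) (z 0)
    have h4 : Real.exp (-(k * |x 0|)) * Real.exp (-(k * ‖z‖)) ≤ Real.exp (-(k * |(x - z) 0|)) := by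
      rw [← Real.exp_add]
      apply Real.exp_le_exp.2
      nlinarith
    have h5 : Real.exp (-m) * (1 + m - k * ‖z‖) ≤ Real.exp (-(k * ‖z‖)) := by
      have h6 := Real.add_one_le_exp (m - k * ‖z‖)
      have h7 : Real.exp (-(k * ‖z‖)) = Real.exp (-m) * Real.exp (m - k * ‖z‖) := by
        rw [← Real.exp_add]
        congr 1
        ring
      rw [h7]
      apply mul_le_mul_of_nonneg_left _ (Real.exp_pos _).le
      linarith
    have h6 := Pool.Agent.H29.TF.hk_nonneg ht.le z
    calc _ = hk t z * (Real.exp (-(k * |x 0|)) * (Real.exp (-m) * (1 + m - k * ‖z‖))) := by ring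
      _ ≤ hk t z * (Real.exp (-(k * |x 0|)) * Real.exp (-(k * ‖z‖))) := by
          apply mul_le_mul_of_nonneg_left _ h6
          exact mul_le_mul_of_nonneg_left h5 (Real.exp_pos _).le
      _ ≤ _ := mul_le_mul_of_nonneg_left h4 h6
  refine le_trans ?_ h1
  rw [integral_const_mul, integral_sub ((Pool.Agent.H29.TF.integrable_hk ht).const_mul _)
    ((hA t ht).1.const_mul k), integral_const_mul, integral_const_mul,
    Pool.Agent.H29.TF.integral_hk ht]
  have h2 := (hA t ht).2
  have h3 : 1 ≤ (1 + m) * 1 - k * ∫ z : E 1, hk t z * ‖z‖ := by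
    have := mul_le_mul_of_nonneg_left h2 hk0
    rw [← hm] at this
    linarith
  have h4 : 0 < Real.exp (-(k * |x 0|)) * Real.exp (-m) := by positivity
  nlinarith

/-- the increments of the solution -/
theorem inc {f : ℝ → ℝ} {K k : ℝ} {Q : ℝ → ℝ → ℝ} (hGRAD : T_GRAD) (hCMP : T_CMP) (hSH : T_SH)
    (hTR : T_TR) (hK : Lip f K) (hk : 0 < k) (hQ : Sol1 f (lgs k) Q) {T : ℝ} (hT : 0 < T) :
    ∃ A ≥ 0, ∃ C ≥ 0, ∀ t ∈ Ioc 0 T, ∀ h ∈ Ioc (0 : ℝ) 1,
      (∀ a, h * (Real.exp (-(K * T)) * (k / 4 * Real.exp (-k) *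
        (Real.exp (-(k * |a|)) * Real.exp (-(k * (A * √T)))))) ≤ Q t a - Q t (a + h)) ∧
      ∀ a b, |(Q t a - Q t (a + h)) - (Q t b - Q t (b + h))| ≤ h * (C * |a - b|) := by
  obtain ⟨A, hA1, hA2, hA3⟩ := hGRAD 1
  have hKp := hK.K0
  refine ⟨A, by linarith, k ^ 2 + A * (K * (Real.exp (K * T) * k)) * (2 * √T), by positivity, ?_⟩
  intro t ht h hh
  -- the mild solution
  obtain ⟨w, hw, hr, hw0, hwt⟩ : ∃ w : ℝ → E 1 → ℝ, Mild f 0 w ∧ Rng 0 w ∧
      (∀ x, w 0 x = lgs k (x 0)) ∧ ∀ t > 0, ∀ x, w t x = Q t (x 0) := by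
    refine ⟨_, hQ.mild, ?_, ?_, ?_⟩
    · intro t ht x
      show 0 ≤ (if t ≤ 0 then lgs k (x 0) else Q t (x 0)) ∧
        (if t ≤ 0 then lgs k (x 0) else Q t (x 0)) ≤ 1
      split_ifs with h1
      · exact ⟨(lgs_mem _ _).1.le, (lgs_mem _ _).2.le⟩
      · have h2 : 0 < t := not_le.1 h1
        exact ⟨(dec_pos (hQ.neg t h2) (hQ.top t h2) _).le,
          (dec_lt_one (hQ.neg t h2) (hQ.bot t h2) _).le⟩
    · intro x
      exact if_pos le_rfl
    · intro t ht x
      exact if_neg (not_le.2 ht)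
  obtain ⟨w', hw', hval⟩ : ∃ w' : ℝ → E 1 → ℝ, Mild f 0 w' ∧ ∀ t x, w' t x = w t (pt1 h + x) := by
    refine ⟨_, mild_restrict (hTR 1 f 0 0 (pt1 h) _ hw) (show (0 : ℝ) - 0 ≤ 0 by linarith), ?_⟩
    intro t x
    show w (0 + t) (pt1 h + x) = _
    rw [zero_add]
  have hr' : Rng 0 w' := by
    intro t ht x
    rw [hval]
    exact hr t ht _
  have hco : ∀ x : E 1, (pt1 h + x) 0 = x 0 + h := by
    intro x
    show h + x 0 = x 0 + h
    ring
  have h00 : ∀ x, w' 0 x = lgs k (x 0 + h) := fun x => by rw [hval, hw0, hco]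
  have h0t : ∀ t > 0, ∀ x, w' t x = Q t (x 0 + h) := fun t ht x => by rw [hval, hwt t ht, hco]
  have hle : ∀ t ≥ 0, ∀ x, w' t x ≤ w t x := by
    intro t ht x
    rcases ht.eq_or_lt with rfl | ht
    · rw [h00, hw0]
      have h1 := lgs_inc hk.le hh.1 (x 0)
      have h2 : 0 ≤ h * (k * (1 / 4 * Real.exp (-(k * (|x 0| + h))))) := by
        have := hh.1
        positivity
      linarith
    · rw [h0t t ht, hwt t ht]
      exact (dec_anti (hQ.neg t ht)).antitone (by linarith [hh.1])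
  have hst : √t ≤ √T := Real.sqrt_le_sqrt ht.2
  constructor
  · intro a
    have h1 := diff_low hSH hK hw hw' hr hr' hle ht.1 (pt1 a)
    rw [hwt t ht.1, h0t t ht.1, pt1_apply] at h1
    refine le_trans ?_ h1
    have h2 : h * (k / 4 * Real.exp (-k)) * P t (fun y : E 1 => Real.exp (-(k * |y 0|))) (pt1 a) ≤
        P t (fun y => w 0 y - w' 0 y) (pt1 a) := by
      rw [← Pool.Agent.H29.TF.P_const_mul]
      refine Pool.Agent.H29.TF.P_mono ht.1 _ ?_ ?_ ?_
      · refine Pool.Agent.H29.TF.integrable_hk_mul ht.1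
          (Continuous.aestronglyMeasurable (by fun_prop)) (C := h * (k / 4 * Real.exp (-k))) ?_ _
        intro y
        have h3 : Real.exp (-(k * |y 0|)) ≤ 1 := by
          rw [Real.exp_le_one_iff]
          have := mul_nonneg hk.le (abs_nonneg (y 0))
          linarith
        have h4 : 0 ≤ h * (k / 4 * Real.exp (-k)) := by
          have := hh.1
          positivity
        rw [abs_of_nonneg (mul_nonneg h4 (Real.exp_pos _).le)]
        exact mul_le_of_le_one_right h4 h3
      · refine Pool.Agent.H29.TF.integrable_hk_mul ht.1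
          (hw.meas.sub hw'.meas).aestronglyMeasurable (C := 1) ?_ _
        intro y
        have a1 := hr 0 le_rfl y
        have a2 := hr' 0 le_rfl y
        show |w 0 y - w' 0 y| ≤ 1
        rw [abs_le]
        constructor <;> linarith [a1.1, a1.2, a2.1, a2.2]
      · intro y
        rw [h00, hw0]
        refine le_trans ?_ (lgs_inc hk.le hh.1 (y 0))
        have h3 : Real.exp (-k) * Real.exp (-(k * |y 0|)) ≤ Real.exp (-(k * (|y 0| + h))) := by
          rw [← Real.exp_add]
          apply Real.exp_le_exp.2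
          nlinarith [hh.2]
        have h4 := mul_le_mul_of_nonneg_left h3 (show 0 ≤ h * (k * (1 / 4)) by
          have := hh.1
          positivity)
        linarith
    have h3 := P_exp_low hA3 hk.le ht.1 (pt1 a)
    rw [pt1_apply] at h3
    have h4 : Real.exp (-(k * |a|)) * Real.exp (-(k * (A * √T))) ≤
        Real.exp (-(k * |a|)) * Real.exp (-(k * (A * √t))) := by
      apply mul_le_mul_of_nonneg_left _ (Real.exp_pos _).le
      apply Real.exp_le_exp.2
      have h5 : A * √t ≤ A * √T := mul_le_mul_of_nonneg_left hst (by linarith)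
      nlinarith
    have h5 : 0 ≤ h * (k / 4 * Real.exp (-k)) := by
      have := hh.1
      positivity
    have h6 : Real.exp (-(K * T)) ≤ Real.exp (-(K * t)) := by
      apply Real.exp_le_exp.2
      nlinarith [ht.2]
    have h7 := mul_le_mul_of_nonneg_left (h4.trans h3) h5
    have h8 : 0 ≤ h * (k / 4 * Real.exp (-k)) *
        (Real.exp (-(k * |a|)) * Real.exp (-(k * (A * √T)))) := by positivity
    calc _ = Real.exp (-(K * T)) * (h * (k / 4 * Real.exp (-k)) *
        (Real.exp (-(k * |a|)) * Real.exp (-(k * (A * √T))))) := by ring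
      _ ≤ Real.exp (-(K * t)) * P t (fun y => w 0 y - w' 0 y) (pt1 a) :=
        mul_le_mul h6 (h7.trans h2) h8 (Real.exp_pos _).le
  · intro a b
    have hinc : ∀ y, |w 0 y - w' 0 y| ≤ k * h := by
      intro y
      rw [h00, hw0]
      have := lgs_lip hk.le (y 0) (y 0 + h)
      rwa [sub_add_cancel_left, abs_neg, abs_of_pos hh.1] at this
    have hB : ∀ q, 0 < q → q ≤ t → ∀ y, |w q y - w' q y| ≤ Real.exp (K * T) * (k * h) := by
      intro q hq hqt y
      refine (diff_up hCMP hK hw hw' (by have := hh.1; positivity) hinc hq y).trans ?_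
      apply mul_le_mul_of_nonneg_right _ (by have := hh.1; positivity)
      apply Real.exp_le_exp.2
      nlinarith [ht.2]
    have h1 := diff_lip hA2 hK hw hw' hinc (L := k ^ 2 * h) (by
      intro x y
      rw [h00, hw0, h00, hw0]
      have h2 := lgs_inc_lip hk.le hh.1 (x 0) (y 0)
      have h3 : ‖x - y‖ = |x 0 - y 0| := by rw [← dist_eq_norm, dist_E1]
      rw [h3]
      have h4 : lgs k (x 0) - lgs k (x 0 + h) - (lgs k (y 0) - lgs k (y 0 + h)) =
        -((lgs k (x 0 + h) - lgs k (x 0)) - (lgs k (y 0 + h) - lgs k (y 0))) := by ring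
      rw [h4, abs_neg]
      exact h2) ht.1 hB (pt1 a) (pt1 b)
    rw [hwt t ht.1, h0t t ht.1, hwt t ht.1, h0t t ht.1, pt1_apply, pt1_apply, ← dist_eq_norm,
      dist_E1, pt1_apply, pt1_apply] at h1
    refine h1.trans ?_
    have h2 : (k ^ 2 * h + A * (K * (Real.exp (K * T) * (k * h))) * (2 * √t)) * |a - b| =
        h * ((k ^ 2 + A * (K * (Real.exp (K * T) * k)) * (2 * √t)) * |a - b|) := by ring
    rw [h2]
    apply mul_le_mul_of_nonneg_left _ hh.1.le
    apply mul_le_mul_of_nonneg_right _ (abs_nonneg _)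
    have h3 : A * (K * (Real.exp (K * T) * k)) * (2 * √t) ≤
        A * (K * (Real.exp (K * T) * k)) * (2 * √T) :=
      mul_le_mul_of_nonneg_left (by linarith) (by positivity)
    linarith

/-- the derivative as a limit of increments -/
theorem tendsto_inc {q : ℝ → ℝ} {d a : ℝ} (h : HasDerivAt q d a) :
    Tendsto (fun s => s⁻¹ * (q a - q (a + s))) (𝓝[>] 0) (𝓝 (-d)) := by
  have h1 := h.tendsto_slope_zero_right.neg
  refine h1.congr (fun s => ?_)
  simp only [smul_eq_mul]
  ring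

theorem pf_LGS (hSOL1 : T_SOL1) (hMRG : T_MRG) (hGRAD : T_GRAD) (hCMP : T_CMP) (hSH : T_SH)
    (hTR : T_TR) : T_LGS := by
  intro f K k hf hK hk
  have hanti : Antitone (lgs k) := by
    intro a b hab
    unfold lgs
    have h1 := Real.exp_pos (k * a)
    have h2 : Real.exp (k * a) ≤ Real.exp (k * b) :=
      Real.exp_le_exp.2 (mul_le_mul_of_nonneg_left hab hk.le)
    exact inv_anti₀ (by linarith) (by linarith)
  have hbot : Tendsto (lgs k) atBot (𝓝 1) := by
    unfold lgs
    have h1 : Tendsto (fun z => k * z) atBot atBot := tendsto_id.const_mul_atBot hk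
    have h2 := (Real.tendsto_exp_atBot.comp h1).const_add 1
    rw [add_zero] at h2
    have h3 := h2.inv₀ one_ne_zero
    rwa [inv_one] at h3
  have htop : Tendsto (lgs k) atTop (𝓝 0) := by
    unfold lgs
    have h1 : Tendsto (fun z => k * z) atTop atTop := tendsto_id.const_mul_atTop hk
    have h2 := Real.tendsto_exp_atTop.comp h1
    exact (tendsto_atTop_add_const_left _ 1 h2).inv_tendsto_atTop
  obtain ⟨Q, hQ⟩ := hSOL1 f (lgs k) K hf hK hanti
    (fun z => ⟨(lgs_mem k z).1.le, (lgs_mem k z).2.le⟩) hbot htop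
  set R : ℝ → ℝ → ℝ := fun t z => if t ≤ 0 then lgs k z else Q t z with hR
  have hRt : ∀ t > 0, R t = Q t := by
    intro t ht
    funext z
    exact if_neg (not_le.2 ht)
  have hR0 : ∀ z, R 0 z = lgs k z := fun z => if_pos le_rfl
  have hsol : Sol1 f (lgs k) R := by
    refine ⟨?_, ?_, ?_, ?_, ?_, ?_, ?_, ?_, ?_⟩
    · intro t ht
      rw [hRt t ht]
      exact hQ.c2 t ht
    · intro t ht z
      rw [hRt t ht]
      refine (hQ.eqn t ht z).congr_of_eventuallyEq ?_
      filter_upwards [lt_mem_nhds ht] with s hs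
      rw [hRt s hs]
    · refine hQ.cont.congr (fun p hp => ?_)
      rw [hRt p.1 hp.1]
    · refine hQ.contz.congr (fun p hp => ?_)
      rw [hRt p.1 hp.1]
    · refine hQ.contzz.congr (fun p hp => ?_)
      rw [hRt p.1 hp.1]
    · intro t ht
      rw [hRt t ht]
      exact hQ.neg t ht
    · intro t ht
      rw [hRt t ht]
      exact hQ.bot t ht
    · intro t ht
      rw [hRt t ht]
      exact hQ.top t ht
    · have h1 : (fun t (x : E 1) => if t ≤ 0 then lgs k (x 0) else R t (x 0)) =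
          fun t (x : E 1) => if t ≤ 0 then lgs k (x 0) else Q t (x 0) := by
        funext t x
        by_cases ht : t ≤ 0
        · rw [if_pos ht, if_pos ht]
        · rw [if_neg ht, if_neg ht, hRt t (not_le.1 ht)]
      rw [h1]
      exact hQ.mild
  have hrng : Rng 0 (fun t (x : E 1) => R t (x 0)) := by
    intro t ht x
    rcases ht.eq_or_lt with rfl | ht
    · show 0 ≤ R 0 (x 0) ∧ R 0 (x 0) ≤ 1
      rw [hR0]
      exact ⟨(lgs_mem _ _).1.le, (lgs_mem _ _).2.le⟩
    · exact ⟨(dec_pos (hsol.neg t ht) (hsol.top t ht) _).le,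
          (dec_lt_one (hsol.neg t ht) (hsol.bot t ht) _).le⟩
  refine ⟨R, hk, hsol, hR0, ?_, ?_⟩
  · have h1 := (hMRG 1 f K (fun t (x : E 1) => R t (x 0)) hf hK hQ.mild hrng).2.2.2.2.2.2 (by
      have h2 : (fun x : E 1 => R 0 (x 0)) = fun x : E 1 => lgs k (x 0) := by
        funext x
        exact hR0 _
      show UniformContinuous (fun x : E 1 => R 0 (x 0))
      rw [h2]
      rw [Metric.uniformContinuous_iff]
      intro ε hε
      refine ⟨ε / k, by positivity, fun a b hab => ?_⟩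
      rw [dist_E1] at hab
      rw [Real.dist_eq]
      refine (lgs_lip hk.le _ _).trans_lt ?_
      rw [lt_div_iff₀ hk] at hab
      linarith)
    have h2 : ContinuousOn (fun p : ℝ × ℝ => (p.1, pt1 p.2)) (Ici 0 ×ˢ univ) :=
      (continuous_fst.prodMk (continuous_pt1.comp continuous_snd)).continuousOn
    exact h1.comp h2 (fun p hp => ⟨hp.1, mem_univ _⟩)
  · intro T hT Zm hZm
    obtain ⟨A, hA, C, hC, h⟩ := inc hGRAD hCMP hSH hTR hK hk hQ hT
    set c : ℝ := Real.exp (-(K * T)) * (k / 4 * Real.exp (-k) *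
        (Real.exp (-(k * Zm)) * Real.exp (-(k * (A * √T))))) with hc
    have hcpos : 0 < c := by positivity
    refine ⟨C / c, fun t ht z hz => ?_⟩
    rw [hRt t ht.1]
    have hd : ∀ a, HasDerivAt (Q t) (deriv (Q t) a) a := fun a =>
      ((hQ.c2 t ht.1).differentiable (by norm_num)).differentiableAt.hasDerivAt
    have hmem : Ioc (0 : ℝ) 1 ∈ 𝓝[>] (0 : ℝ) := Ioc_mem_nhdsGT one_pos
    have h1 : c ≤ -deriv (Q t) z := by
      refine ge_of_tendsto (tendsto_inc (hd z)) ?_
      filter_upwards [hmem] with s hs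
      have h2 := (h t ht s hs).1 z
      have h3 : c ≤ Real.exp (-(K * T)) * (k / 4 * Real.exp (-k) *
          (Real.exp (-(k * |z|)) * Real.exp (-(k * (A * √T))))) := by
        rw [hc]
        apply mul_le_mul_of_nonneg_left _ (Real.exp_pos _).le
        apply mul_le_mul_of_nonneg_left _ (by positivity)
        apply mul_le_mul_of_nonneg_right _ (Real.exp_pos _).le
        apply Real.exp_le_exp.2
        nlinarith
      have h4 := mul_le_mul_of_nonneg_left h3 hs.1.le
      rw [← div_eq_inv_mul, le_div_iff₀ hs.1]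
      linarith
    have h2 : |deriv (deriv (Q t)) z| ≤ C := by
      rw [← Real.norm_eq_abs]
      refine norm_deriv_le_of_lip' hC (Eventually.of_forall fun y => ?_)
      have h3 : Tendsto (fun s => |s⁻¹ * (Q t z - Q t (z + s)) - s⁻¹ * (Q t y - Q t (y + s))|)
          (𝓝[>] 0) (𝓝 |-deriv (Q t) z - -deriv (Q t) y|) :=
        ((tendsto_inc (hd z)).sub (tendsto_inc (hd y))).abs
      have h4 : |-deriv (Q t) z - -deriv (Q t) y| ≤ C * |z - y| := by
        refine le_of_tendsto h3 ?_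
        filter_upwards [hmem] with s hs
        have h5 := (h t ht s hs).2 z y
        rw [← mul_sub, abs_mul, abs_of_pos (inv_pos.2 hs.1), ← div_eq_inv_mul,
          div_le_iff₀ hs.1]
        linarith
      rw [Real.norm_eq_abs, Real.norm_eq_abs, abs_sub_comm y z]
      have h5 : deriv (Q t) y - deriv (Q t) z = -deriv (Q t) z - -deriv (Q t) y := by ring
      rw [h5]
      exact h4
    refine h2.trans ?_
    rw [div_mul_eq_mul_div, le_div_iff₀ hcpos]
    exact mul_le_mul_of_nonneg_left h1 hC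

end Pool.Agent.H29.RF.LGS
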