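import Pool.Agent.H29.RF.Base

/-!
# MP_609556_an, module LVL: level set description of the one-dimensional solution
-/

open MeasureTheory Set Filter Topology Metric
open Pool.Agent.H29.TF (hk P)
open Pool.Agent.H91.RD Pool.Agent.H91.RF

namespace Pool.Agent.H29.RF

/-- the linear isomorphism `(h, k) ↦ (h, a h + b k)` -/
noncomputable def shear (a b : ℝ) (hb : b ≠ 0) : (ℝ × ℝ) ≃L[ℝ] (ℝ × ℝ) :=
  ContinuousLinearEquiv.equivOfInverse
    ((ContinuousLinearMap.fst ℝ ℝ ℝ).prod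
      (a • ContinuousLinearMap.fst ℝ ℝ ℝ + b • ContinuousLinearMap.snd ℝ ℝ ℝ))
    ((ContinuousLinearMap.fst ℝ ℝ ℝ).prod
      ((-(a / b)) • ContinuousLinearMap.fst ℝ ℝ ℝ + (1 / b) • ContinuousLinearMap.snd ℝ ℝ ℝ))
    (fun x => by
      ext
      · simp
      · simp
        field_simp
        ring)
    (fun x => by
      ext
      · simp
      · simp
        field_simp
        ring)

theorem shear_coe (a b : ℝ) (hb : b ≠ 0) : ((shear a b hb : (ℝ × ℝ) ≃L[ℝ] (ℝ × ℝ)) :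
    (ℝ × ℝ) →L[ℝ] (ℝ × ℝ)) = (ContinuousLinearMap.fst ℝ ℝ ℝ).prod
      ((a • (1 : ℝ →L[ℝ] ℝ)).coprod (b • (1 : ℝ →L[ℝ] ℝ))) := by
  apply ContinuousLinearMap.ext
  intro x
  apply Prod.ext
  · rfl
  · rfl

theorem smul_one_eq (c : ℝ) : c • (1 : ℝ →L[ℝ] ℝ) = ContinuousLinearMap.toSpanSingleton ℝ c := by
  apply ContinuousLinearMap.ext
  intro x
  simp [mul_comm]

theorem shear_symm_apply (a b : ℝ) (hb : b ≠ 0) (x : ℝ × ℝ) :
    (shear a b hb).symm x = (x.1, -(a / b) * x.1 + 1 / b * x.2) := rfl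

section
variable {f : ℝ → ℝ} {K : ℝ} {Pv : ℝ → ℝ → ℝ}

/-- strict differentiability of `(t, z) ↦ (t, Pv t z)` -/
theorem strict (hK : Lip f K) (h : Stp f Pv) {t : ℝ} (ht : 0 < t) (z : ℝ) :
    HasStrictFDerivAt (fun q : ℝ × ℝ => (q.1, Pv q.1 q.2))
      ((shear (deriv (deriv (Pv t)) z + f (Pv t z)) (deriv (Pv t) z) (h.neg t ht z).ne :
        (ℝ × ℝ) ≃L[ℝ] (ℝ × ℝ)) : (ℝ × ℝ) →L[ℝ] (ℝ × ℝ)) (t, z) := by
  have hnb : Ioi (0 : ℝ) ×ˢ (univ : Set ℝ) ∈ 𝓝 (t, z) :=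
    (isOpen_Ioi.prod isOpen_univ).mem_nhds ⟨ht, mem_univ _⟩
  have hc1 : ContinuousOn (fun p : ℝ × ℝ => deriv (deriv (Pv p.1)) p.2 + f (Pv p.1 p.2))
      (Ioi 0 ×ˢ univ) := h.contzz.add (hK.continuous.comp_continuousOn h.cont)
  have h1 : HasStrictFDerivAt (fun q : ℝ × ℝ => Pv q.1 q.2)
      ((((deriv (deriv (Pv t)) z + f (Pv t z)) • (1 : ℝ →L[ℝ] ℝ))).coprod
        ((deriv (Pv t) z) • (1 : ℝ →L[ℝ] ℝ))) (t, z) := by
    refine hasStrictFDerivAt_uncurry_coprod (𝕜 := ℝ) (f := Pv) (u := (t, z))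
      (f₁ := fun t z => (deriv (deriv (Pv t)) z + f (Pv t z)) • (1 : ℝ →L[ℝ] ℝ))
      (f₂ := fun t z => (deriv (Pv t) z) • (1 : ℝ →L[ℝ] ℝ)) ?_ ?_ ?_ ?_
    · filter_upwards [hnb] with q hq
      show HasFDerivAt (fun s => Pv s q.2)
        ((deriv (deriv (Pv q.1)) q.2 + f (Pv q.1 q.2)) • (1 : ℝ →L[ℝ] ℝ)) q.1
      rw [smul_one_eq]
      exact (h.eqn q.1 hq.1 q.2).hasFDerivAt
    · filter_upwards [hnb] with q hq
      have h2 : HasDerivAt (Pv q.1) (deriv (Pv q.1) q.2) q.2 :=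
        ((h.c2 q.1 hq.1).differentiable (by norm_num)).differentiableAt.hasDerivAt
      show HasFDerivAt (fun s => Pv q.1 s) ((deriv (Pv q.1) q.2) • (1 : ℝ →L[ℝ] ℝ)) q.2
      rw [smul_one_eq]
      exact h2.hasFDerivAt
    · exact (hc1.continuousAt hnb).smul continuousAt_const
    · exact (h.contz.continuousAt hnb).smul continuousAt_const
  have h2 := (hasStrictFDerivAt_fst (𝕜 := ℝ) (E := ℝ) (F := ℝ) (p := (t, z))).prodMk h1
  rw [shear_coe]
  exact h2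

/-- the level -/
noncomputable def lvl (Pv : ℝ → ℝ → ℝ) (t s : ℝ) : ℝ := by
  classical
  exact if h : ∃ z, Pv t z = s then h.choose else 0

theorem lvl_spec {t s : ℝ} (h : ∃ z, Pv t z = s) : Pv t (lvl Pv t s) = s := by
  unfold lvl
  rw [dif_pos h]
  exact h.choose_spec

theorem lvl_eq (h : Stp f Pv) {t : ℝ} (ht : 0 < t) (z : ℝ) : lvl Pv t (Pv t z) = z := by
  have h1 := lvl_spec (Pv := Pv) (t := t) ⟨z, rfl⟩
  exact (dec_anti (h.neg t ht)).injective h1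

theorem lvl_val (h : Stp f Pv) {t : ℝ} (ht : 0 < t) {s : ℝ} (hs : s ∈ Ioo (0 : ℝ) 1) :
    Pv t (lvl Pv t s) = s :=
  lvl_spec (dec_surj (h.c2 t ht).continuous (h.top t ht) (h.bot t ht) hs)

theorem strict_lvl (hK : Lip f K) (h : Stp f Pv) {t : ℝ} (ht : 0 < t) {s : ℝ}
    (hs : s ∈ Ioo (0 : ℝ) 1) :
    HasStrictFDerivAt (fun q : ℝ × ℝ => (q.1, lvl Pv q.1 q.2))
      (((shear (deriv (deriv (Pv t)) (lvl Pv t s) + f s) (deriv (Pv t) (lvl Pv t s))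
        (h.neg t ht _).ne).symm : (ℝ × ℝ) ≃L[ℝ] (ℝ × ℝ)) : (ℝ × ℝ) →L[ℝ] (ℝ × ℝ)) (t, s) := by
  have h1 := strict hK h ht (lvl Pv t s)
  have h2 := h1.to_local_left_inverse (g := fun q : ℝ × ℝ => (q.1, lvl Pv q.1 q.2)) (by
    filter_upwards [(isOpen_Ioi.prod isOpen_univ).mem_nhds
      (show (t, lvl Pv t s) ∈ Ioi (0 : ℝ) ×ˢ (univ : Set ℝ) from ⟨ht, mem_univ _⟩)] with q hq
    show (q.1, lvl Pv q.1 (Pv q.1 q.2)) = q
    rw [lvl_eq h hq.1])
  simp only [lvl_val h ht hs] at h2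
  exact h2

theorem hasDerivAt_lvl_t (hK : Lip f K) (h : Stp f Pv) {t : ℝ} (ht : 0 < t) {s : ℝ}
    (hs : s ∈ Ioo (0 : ℝ) 1) :
    HasDerivAt (fun r => lvl Pv r s)
      (-((deriv (deriv (Pv t)) (lvl Pv t s) + f s) / deriv (Pv t) (lvl Pv t s))) t := by
  have h1 := (strict_lvl hK h ht hs).hasFDerivAt
  have h2 := (hasFDerivAt_snd (𝕜 := ℝ) (E := ℝ) (F := ℝ) (p := (t, lvl Pv t s))).comp (t, s) h1
  have h3 : HasDerivAt (fun r : ℝ => (r, s)) ((1 : ℝ), (0 : ℝ)) t :=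
    (hasDerivAt_id t).prodMk (hasDerivAt_const t s)
  have h4 := h2.comp_hasDerivAt t h3
  have h5 : ((ContinuousLinearMap.snd ℝ ℝ ℝ).comp
      (((shear (deriv (deriv (Pv t)) (lvl Pv t s) + f s) (deriv (Pv t) (lvl Pv t s))
        (h.neg t ht _).ne).symm : (ℝ × ℝ) ≃L[ℝ] (ℝ × ℝ)) : (ℝ × ℝ) →L[ℝ] (ℝ × ℝ)))
      ((1 : ℝ), (0 : ℝ)) =
      -((deriv (deriv (Pv t)) (lvl Pv t s) + f s) / deriv (Pv t) (lvl Pv t s)) := by
    show -((deriv (deriv (Pv t)) (lvl Pv t s) + f s) / deriv (Pv t) (lvl Pv t s)) * 1 +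
      1 / deriv (Pv t) (lvl Pv t s) * 0 = _
    ring
  rw [← h5]
  exact h4

theorem hasDerivAt_lvl_s (hK : Lip f K) (h : Stp f Pv) {t : ℝ} (ht : 0 < t) {s : ℝ}
    (hs : s ∈ Ioo (0 : ℝ) 1) :
    HasDerivAt (fun r => lvl Pv t r) (1 / deriv (Pv t) (lvl Pv t s)) s := by
  have h1 := (strict_lvl hK h ht hs).hasFDerivAt
  have h2 := (hasFDerivAt_snd (𝕜 := ℝ) (E := ℝ) (F := ℝ) (p := (t, lvl Pv t s))).comp (t, s) h1
  have h3 : HasDerivAt (fun r : ℝ => (t, r)) ((0 : ℝ), (1 : ℝ)) s :=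
    (hasDerivAt_const s t).prodMk (hasDerivAt_id s)
  have h4 := h2.comp_hasDerivAt s h3
  have h5 : ((ContinuousLinearMap.snd ℝ ℝ ℝ).comp
      (((shear (deriv (deriv (Pv t)) (lvl Pv t s) + f s) (deriv (Pv t) (lvl Pv t s))
        (h.neg t ht _).ne).symm : (ℝ × ℝ) ≃L[ℝ] (ℝ × ℝ)) : (ℝ × ℝ) →L[ℝ] (ℝ × ℝ)))
      ((0 : ℝ), (1 : ℝ)) = 1 / deriv (Pv t) (lvl Pv t s) := by
    show -((deriv (deriv (Pv t)) (lvl Pv t s) + f s) / deriv (Pv t) (lvl Pv t s)) * 0 +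
      1 / deriv (Pv t) (lvl Pv t s) * 1 = _
    ring
  rw [← h5]
  exact h4

theorem continuousOn_lvl (hK : Lip f K) (h : Stp f Pv) :
    ContinuousOn (fun q : ℝ × ℝ => (q.1, lvl Pv q.1 q.2)) (Ioi 0 ×ˢ Ioo 0 1) := by
  rintro ⟨t, s⟩ ⟨ht, hs⟩
  exact (strict_lvl hK h ht hs).continuousAt.continuousWithinAt

theorem continuousOn_comp_lvl (hK : Lip f K) (h : Stp f Pv) {G : ℝ × ℝ → ℝ}
    (hG : ContinuousOn G (Ioi 0 ×ˢ univ)) :
    ContinuousOn (fun q : ℝ × ℝ => G (q.1, lvl Pv q.1 q.2)) (Ioi 0 ×ˢ Ioo 0 1) :=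
  hG.comp (continuousOn_lvl hK h) (fun _ hq => ⟨hq.1, mem_univ _⟩)

end

theorem pf_LVL (hTR : T_TR) (hST : T_STEEP) : T_LVL := by
  intro f K Pv hf hK h
  have hne : ∀ t > 0, ∀ s, deriv (Pv t) (lvl Pv t s) ≠ 0 := fun t ht s => (h.neg t ht _).ne
  have hpc : ContinuousOn (fun q : ℝ × ℝ => -deriv (Pv q.1) (lvl Pv q.1 q.2))
      (Ioi 0 ×ˢ Ioo 0 1) := (continuousOn_comp_lvl hK h h.contz).neg
  refine ⟨lvl Pv, fun t s => -deriv (Pv t) (lvl Pv t s),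
    fun t s => (deriv (deriv (Pv t)) (lvl Pv t s) + f s) / (-deriv (Pv t) (lvl Pv t s)),
    ?_, hpc, ?_, ?_⟩
  · intro t ht s hs
    have hd := hne t ht s
    refine ⟨lvl_val h ht hs, rfl, by linarith [h.neg t ht (lvl Pv t s)], ?_, ?_⟩
    · have h1 := hasDerivAt_lvl_t hK h ht hs
      show HasDerivAt (fun r => lvl Pv r s)
        ((deriv (deriv (Pv t)) (lvl Pv t s) + f s) / -deriv (Pv t) (lvl Pv t s)) t
      rw [div_neg]
      exact h1
    · have h1 := hasDerivAt_lvl_s hK h ht hs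
      have h2 : HasDerivAt (deriv (Pv t)) (deriv (deriv (Pv t)) (lvl Pv t s)) (lvl Pv t s) := by
        have h3 : ContDiff ℝ 1 (deriv (Pv t)) := by
          have h4 := (h.c2 t ht)
          rw [show (2 : WithTop ℕ∞) = 1 + 1 from rfl, contDiff_succ_iff_deriv] at h4
          exact h4.2.2
        exact (h3.differentiable (by norm_num)).differentiableAt.hasDerivAt
      have h3 := (h2.comp s h1).neg
      have h5 : -(deriv (deriv (Pv t)) (lvl Pv t s) * (1 / deriv (Pv t) (lvl Pv t s))) =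
          (deriv (deriv (Pv t)) (lvl Pv t s) + f s) / -deriv (Pv t) (lvl Pv t s) -
          f s / -deriv (Pv t) (lvl Pv t s) := by
        field_simp
        ring
      rw [h5] at h3
      exact h3
  · apply ContinuousOn.div
    · exact (continuousOn_comp_lvl hK h h.contzz).add (hK.continuous.comp_continuousOn
        continuousOn_snd)
    · exact hpc
    · rintro ⟨t, s⟩ ⟨ht, _⟩
      exact neg_ne_zero.2 (hne t ht s)
  · intro s hs r t hr hrt
    rcases hrt.eq_or_lt with rfl | hlt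
    · exact le_rfl
    have ht : 0 < t := hr.trans hlt
    -- the translated solution
    obtain ⟨w, h2, hval⟩ : ∃ w : ℝ → E 1 → ℝ, Mild f 0 w ∧
        ∀ τ ≥ 0, ∀ x : E 1, w τ x = Pv ((t - r) + τ) (x 0) := by
      refine ⟨_, mild_restrict (hTR 1 f 0 (t - r) 0 _ h.mild)
        (show (0 : ℝ) - (t - r) ≤ 0 by linarith), ?_⟩
      intro τ hτ x
      show (if (t - r) + τ ≤ 0 then (if (0 + x) 0 < 0 then (1 : ℝ) else 0) else
        Pv ((t - r) + τ) ((0 + x) 0)) = _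
      rw [if_neg (by linarith), zero_add]
    have h3 := hST 1 f K Pv w le_rfl hf hK h h2 (by
      intro τ hτ x
      rw [hval τ hτ x]
      have : 0 < (t - r) + τ := by linarith
      exact ⟨(dec_pos (h.neg _ this) (h.top _ this) _).le,
        (dec_lt_one (h.neg _ this) (h.bot _ this) _).le⟩)
    have h4 : ∀ k ≥ 0, Pv r (lvl Pv r s + k) ≤ Pv t (lvl Pv t s + k) := by
      intro k hk
      have h5 := h3 r hr (pt1 (lvl Pv t s)) (pt1 (lvl Pv t s + k)) (lvl Pv r s) (by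
        rw [hval r hr.le, pt1_apply, sub_add_cancel, lvl_val h ht hs, lvl_val h hr hs])
      rw [hval r hr.le, pt1_apply, sub_add_cancel, dist_E1, pt1_apply, pt1_apply] at h5
      have h6 : |lvl Pv t s - (lvl Pv t s + k)| = k := by
        rw [sub_add_cancel_left, abs_neg, abs_of_nonneg hk]
      rwa [h6] at h5
    -- derivative at `k = 0`
    have hd : ∀ τ > 0, HasDerivAt (fun k => Pv τ (lvl Pv τ s + k)) (deriv (Pv τ) (lvl Pv τ s)) 0 := by
      intro τ hτ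
      have h5 : HasDerivAt (Pv τ) (deriv (Pv τ) (lvl Pv τ s)) (lvl Pv τ s + 0) := by
        rw [add_zero]
        exact ((h.c2 τ hτ).differentiable (by norm_num)).differentiableAt.hasDerivAt
      have h6 := h5.comp_const_add (lvl Pv τ s) 0
      exact h6
    have h5 := (hd t ht).sub (hd r hr)
    have h6 := h5.tendsto_slope_zero_right
    have h7 : 0 ≤ deriv (Pv t) (lvl Pv t s) - deriv (Pv r) (lvl Pv r s) := by
      refine ge_of_tendsto h6 ?_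
      filter_upwards [self_mem_nhdsWithin] with k hk
      have hk : 0 < k := hk
      have h8 := h4 k hk.le
      have h9 : Pv t (lvl Pv t s) - Pv r (lvl Pv r s) = 0 := by
        rw [lvl_val h ht hs, lvl_val h hr hs, sub_self]
      simp only [zero_add, add_zero, Pi.sub_apply, smul_eq_mul]
      rw [h9, sub_zero]
      exact mul_nonneg (inv_nonneg.2 hk.le) (by linarith)
    show -deriv (Pv t) (lvl Pv t s) ≤ -deriv (Pv r) (lvl Pv r s)
    linarith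

end Pool.Agent.H29.RF
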