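import Pool.Agent.H29.RF.Base
import Pool.Agent.H3.RD.Base

/-!
# MP_609556_an, module STEEP: the solution with step datum is the steepest one
-/

open MeasureTheory Set Filter Topology Metric
open Pool.Agent.H29.TF (hk P)
open Pool.Agent.H91.RD Pool.Agent.H91.RF

namespace Pool.Agent.H29.RF

section strict
variable {N : ℕ} {f : ℝ → ℝ} {K : ℝ} {w : ℝ → E N → ℝ}

/-- values stay below `1` -/
theorem lt_one (hSH : T_SH) (hK : Lip f K) (hw : Mild f 0 w) (hr : Rng 0 w) {δ : ℝ} (hδ : 0 < δ)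
    (h0 : ∀ x, w 0 x ≤ 1 - δ) {t : ℝ} (ht : 0 < t) (x : E N) : w t x < 1 := by
  have hm0 : AEStronglyMeasurable (w 0) volume := hw.meas.aestronglyMeasurable
  have hb0 : ∀ y, |w 0 y| ≤ 1 := fun y => abs_le.2 ⟨by linarith [(hr 0 le_rfl y).1], (hr 0 le_rfl y).2⟩
  have hPw : ∀ r > 0, ∀ x, P r (fun y => w 0 y - 1) x = P r (w 0) x - 1 := by
    intro r hr' x
    rw [Pool.Agent.H29.TF.P_sub x (Pool.Agent.H29.TF.integrable_hk_mul hr' hm0 hb0 x)
      (Pool.Agent.H29.TF.integrable_hk_mul hr' aestronglyMeasurable_const (C := 1) (by simp) x),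
      Pool.Agent.H29.TF.P_const hr' 1 x]
  have h1 := hSH N K (1 + K) 0 t (fun r y => w r y - 1) (fun r y => f (w r y)) ht
    (hw.meas.sub_const 1)
    (by
      intro r hr' y
      have := hr r hr'.1 y
      rw [abs_le]
      constructor <;> linarith [this.1, this.2, hK.K0])
    (by
      intro r hr' y
      have h2 := hr r hr'.1 y
      refine (hK.abs_le _).trans ?_
      rw [abs_of_nonneg h2.1]
      nlinarith [hK.K0, h2.2])
    ((hw.cont.mono (prod_mono (fun r hr' => hr'.1) (subset_refl _))).sub continuousOn_const)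
    ((hK.continuous.comp_continuousOn hw.cont).mono
      (prod_mono (fun r hr' => hr'.1) (subset_refl _)))
    (by
      intro r hr' y
      have h2 := hw.duh 0 r le_rfl hr'.1 y
      have h3 : P (r - 0) (fun y => w 0 y - 1) y = P (r - 0) (w 0) y - 1 := by
        rw [sub_zero]
        exact hPw r hr'.1 y
      show w r y - 1 = P (r - 0) (fun y => w 0 y - 1) y + _
      rw [h3, h2]
      ring)
    t ⟨ht, le_rfl⟩ x
  have h2 : P (t - 0) (fun y => w 0 y - 1) x ≤ -δ := by
    rw [sub_zero, ← Pool.Agent.H29.TF.P_const ht (-δ) x]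
    refine Pool.Agent.H29.TF.P_mono ht x
      (Pool.Agent.H29.TF.integrable_hk_mul ht (hm0.sub aestronglyMeasurable_const) (C := 2) ?_ x)
      (Pool.Agent.H29.TF.integrable_hk_mul ht aestronglyMeasurable_const (C := |δ|) (by simp) x) ?_
    · intro y
      have := hr 0 le_rfl y
      show |w 0 y - 1| ≤ 2
      rw [abs_le]
      constructor <;> linarith [this.1, this.2]
    · intro y
      linarith [h0 y]
  have h3 : ∫ q in (0 : ℝ)..t, Real.exp (-(K * (t - q))) *
      P (t - q) (fun y => f (w q y) + K * (w q y - 1)) x ≤ 0 := by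
    have h4 : ∀ᵐ q : ℝ, q ∈ Ioc 0 t → Real.exp (-(K * (t - q))) *
        P (t - q) (fun y => f (w q y) + K * (w q y - 1)) x ≤ 0 := by
      refine Eventually.of_forall fun q hq => ?_
      refine mul_nonpos_of_nonneg_of_nonpos (Real.exp_pos _).le ?_
      have h5 : 0 ≤ P (t - q) (fun y => -(f (w q y) + K * (w q y - 1))) x := by
        apply Pool.Agent.H29.TF.P_nonneg (by linarith [hq.2])
        intro y
        have h6 := hr q hq.1.le y
        have h7 := hK.lip (w q y) 1
        have h9 : |w q y - 1| = 1 - w q y := by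
          rw [abs_sub_comm, abs_of_nonneg (by linarith [h6.2])]
        rw [hK.f1, sub_zero, h9] at h7
        have h8 := le_abs_self (f (w q y))
        linarith
      have h6 : P (t - q) (fun y => -(f (w q y) + K * (w q y - 1))) x =
          -P (t - q) (fun y => f (w q y) + K * (w q y - 1)) x := by
        unfold P
        rw [← integral_neg]
        congr 1
        ext y
        ring
      linarith
    rw [intervalIntegral.integral_of_le ht.le]
    refine integral_nonpos_of_ae ?_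
    rw [Filter.EventuallyLE, ae_restrict_iff' measurableSet_Ioc]
    filter_upwards [h4] with q hq hq'
    exact hq hq'
  have h4 : Real.exp (-(K * (t - 0))) * P (t - 0) (fun y => w 0 y - 1) x ≤
      Real.exp (-(K * (t - 0))) * (-δ) := mul_le_mul_of_nonneg_left h2 (Real.exp_pos _).le
  have h5 : Real.exp (-(K * (t - 0))) * (-δ) < 0 :=
    mul_neg_of_pos_of_neg (Real.exp_pos _) (by linarith)
  have h6 : w t x - 1 = Real.exp (-(K * (t - 0))) * P (t - 0) (fun y => w 0 y - 1) x +
    ∫ q in (0 : ℝ)..t, Real.exp (-(K * (t - q))) *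
      P (t - q) (fun y => f (w q y) + K * (w q y - 1)) x := h1
  linarith

end strict

/-- the logistic datum is in `(0,1)` -/
theorem lgs_mem (k z : ℝ) : 0 < lgs k z ∧ lgs k z < 1 := by
  unfold lgs
  have h := Real.exp_pos (k * z)
  constructor
  · positivity
  · exact inv_lt_one_of_one_lt₀ (by linarith)

theorem continuous_lgs (k : ℝ) : Continuous (lgs k) := by
  unfold lgs
  apply Continuous.inv₀ (by fun_prop)
  intro z
  have h := Real.exp_pos (k * z)
  linarith

theorem ae_ne : ∀ᵐ y : E 1, y 0 ≠ 0 := by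
  rw [ae_iff]
  have h1 : {a : E 1 | ¬ a 0 ≠ 0} = {0} := by
    ext a
    simp only [ne_eq, not_not, mem_singleton_iff]
    change a 0 = 0 ↔ a = 0
    constructor
    · intro h
      rw [← pt1_eta a, h]
      rfl
    · rintro rfl
      rfl
  rw [h1]
  exact measure_singleton 0

theorem tendsto_lgs {kn : ℕ → ℝ} (hk : Tendsto kn atTop atTop) {z : ℝ} (hz : z ≠ 0) :
    Tendsto (fun n => lgs (kn n) z) atTop (𝓝 (if z < 0 then 1 else 0)) := by
  unfold lgs
  rcases lt_or_gt_of_ne hz with h | h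
  · rw [if_pos h]
    have h1 : Tendsto (fun n => kn n * z) atTop atBot := hk.atTop_mul_const_of_neg h
    have h2 := (Real.tendsto_exp_atBot.comp h1).const_add 1
    rw [add_zero] at h2
    have h3 := h2.inv₀ one_ne_zero
    rwa [inv_one] at h3
  · rw [if_neg (not_lt.2 h.le)]
    have h1 : Tendsto (fun n => kn n * z) atTop atTop := hk.atTop_mul_const h
    have h2 := Real.tendsto_exp_atTop.comp h1
    exact (tendsto_atTop_add_const_left _ 1 h2).inv_tendsto_atTop

/-- convergence of the solutions with logistic data -/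
theorem conv_lgs (hDEP : T_DEP) {f : ℝ → ℝ} {K : ℝ} {Pv : ℝ → ℝ → ℝ} (hK : Lip f K)
    (h : Stp f Pv) {kn : ℕ → ℝ} (hkn : Tendsto kn atTop atTop) {Q : ℕ → ℝ → ℝ → ℝ}
    (hQ : ∀ n, Lgs f (kn n) (Q n)) {t : ℝ} (ht : 0 < t) (z : ℝ) :
    Tendsto (fun n => Q n t z) atTop (𝓝 (Pv t z)) := by
  have h1 := hDEP 1 f K
    (fun n t (x : E 1) => if t ≤ 0 then lgs (kn n) (x 0) else Q n t (x 0))
    (fun t (x : E 1) => if t ≤ 0 then (if x 0 < 0 then 1 else 0) else Pv t (x 0)) hK
    (by
      intro n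
      refine ⟨(hQ n).sol.mild, ?_⟩
      intro t ht x
      show 0 ≤ (if t ≤ 0 then lgs (kn n) (x 0) else Q n t (x 0)) ∧
        (if t ≤ 0 then lgs (kn n) (x 0) else Q n t (x 0)) ≤ 1
      split_ifs with h1
      · exact ⟨(lgs_mem _ _).1.le, (lgs_mem _ _).2.le⟩
      · have h2 : 0 < t := not_le.1 h1
        exact ⟨(dec_pos ((hQ n).sol.neg t h2) ((hQ n).sol.top t h2) _).le,
          (dec_lt_one ((hQ n).sol.neg t h2) ((hQ n).sol.bot t h2) _).le⟩)
    h.mild
    (by
      intro t ht x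
      show 0 ≤ (if t ≤ 0 then (if x 0 < 0 then (1 : ℝ) else 0) else Pv t (x 0)) ∧
        (if t ≤ 0 then (if x 0 < 0 then (1 : ℝ) else 0) else Pv t (x 0)) ≤ 1
      split_ifs with h1 h3
      · norm_num
      · norm_num
      · have h2 : 0 < t := not_le.1 h1
        exact ⟨(dec_pos (h.neg t h2) (h.top t h2) _).le,
          (dec_lt_one (h.neg t h2) (h.bot t h2) _).le⟩)
    (by
      intro t ht x
      unfold P
      refine tendsto_integral_of_dominated_convergence (fun y => hk t (x - y)) ?_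
        (Pool.Agent.H29.TF.integrable_hk_sub ht x) ?_ ?_
      · intro n
        have h2 : Continuous (fun y : E 1 => hk t (x - y) * lgs (kn n) (y 0)) := by
          apply Continuous.mul (by fun_prop)
          exact (continuous_lgs (kn n)).comp (by fun_prop)
        have h3 : (fun y : E 1 => hk t (x - y) *
            (fun t (x : E 1) => if t ≤ 0 then lgs (kn n) (x 0) else Q n t (x 0)) 0 y) =
            fun y : E 1 => hk t (x - y) * lgs (kn n) (y 0) := by
          funext y
          simp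
        rw [h3]
        exact h2.aestronglyMeasurable
      · intro n
        refine Eventually.of_forall fun y => ?_
        show ‖hk t (x - y) * (if (0 : ℝ) ≤ 0 then lgs (kn n) (y 0) else Q n 0 (y 0))‖ ≤ _
        rw [if_pos le_rfl, norm_mul, Real.norm_of_nonneg (Pool.Agent.H29.TF.hk_nonneg ht.le _),
          Real.norm_of_nonneg (lgs_mem _ _).1.le]
        exact mul_le_of_le_one_right (Pool.Agent.H29.TF.hk_nonneg ht.le _) (lgs_mem _ _).2.le
      · filter_upwards [ae_ne] with y hy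
        show Tendsto (fun n => hk t (x - y) *
          (if (0 : ℝ) ≤ 0 then lgs (kn n) (y 0) else Q n 0 (y 0))) atTop
          (𝓝 (hk t (x - y) * (if (0 : ℝ) ≤ 0 then (if y 0 < 0 then (1 : ℝ) else 0) else
            Pv 0 (y 0))))
        simp only [le_refl, if_true]
        exact (tendsto_lgs hkn hy).const_mul _)
    t ht (pt1 z)
  have h2 : (fun n => (fun n t (x : E 1) => if t ≤ 0 then lgs (kn n) (x 0) else Q n t (x 0))
      n t (pt1 z)) = fun n => Q n t z := by
    funext n
    show (if t ≤ 0 then lgs (kn n) (pt1 z 0) else Q n t (pt1 z 0)) = _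
    rw [if_neg (not_le.2 ht), pt1_apply]
  rw [h2] at h1
  have h3 : (if t ≤ 0 then (if pt1 z 0 < 0 then (1 : ℝ) else 0) else Pv t (pt1 z 0)) =
      Pv t z := by
    rw [if_neg (not_le.2 ht), pt1_apply]
  rw [h3] at h1
  exact h1

/-- steps 1 and 2 -/
theorem core (hSTL : T_STL) (hLGS : T_LGS) (hDEP : T_DEP) (hSH : T_SH) {N : ℕ} {f : ℝ → ℝ}
    {K : ℝ} {Pv : ℝ → ℝ → ℝ} {v : ℝ → E N → ℝ} (hN : 1 ≤ N) (hf : Reaction f) (hK : Lip f K)
    (h : Stp f Pv) (hv : Mild f 0 v) (hr : Rng 0 v) {δ : ℝ} (hδ : 0 < δ) (hδ2 : δ < 1 / 2)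
    (h0 : ∀ x, δ ≤ v 0 x ∧ v 0 x ≤ 1 - δ) {k0 : ℝ} (hk0 : 0 ≤ k0)
    (hl : ∀ x y, |Real.log (v 0 x / (1 - v 0 x)) - Real.log (v 0 y / (1 - v 0 y))| ≤
      k0 * ‖x - y‖) {t : ℝ} (ht : 0 < t) (x y : E N) (z : ℝ) (hz : Pv t z < v t x) :
    Pv t (z + dist x y) ≤ v t y := by
  have hkpos : ∀ n : ℕ, 0 < k0 + n + 1 := fun n => by positivity
  have hex : ∀ n : ℕ, ∃ Q, Lgs f (k0 + n + 1) Q := fun n => hLGS f K _ hf hK (hkpos n)
  choose Q hQ using hex
  have hkn : Tendsto (fun n : ℕ => k0 + n + 1) atTop atTop := by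
    apply tendsto_atTop_add_const_right
    apply tendsto_atTop_add_const_left
    exact tendsto_natCast_atTop_atTop
  have hconv := fun z => conv_lgs hDEP hK h hkn hQ ht z
  have ha1 : v t x < 1 := lt_one hSH hK hv hr hδ (fun x => (h0 x).2) ht x
  have ha0 : 0 < v t x := (dec_pos (h.neg t ht) (h.top t ht) z).trans hz
  refine le_of_tendsto (hconv (z + dist x y)) ?_
  filter_upwards [(hconv z).eventually (gt_mem_nhds hz)] with n hn
  obtain ⟨zn, hzn⟩ := dec_surj ((hQ n).sol.c2 t ht).continuous ((hQ n).sol.top t ht)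
    ((hQ n).sol.bot t ht) ⟨ha0, ha1⟩
  have hanti := dec_anti ((hQ n).sol.neg t ht)
  have h1 : zn < z := by
    have h2 : Q n t z < Q n t zn := by rw [hzn]; exact hn
    exact hanti.lt_iff_gt.1 h2
  have h2 := hSTL N f K (k0 + n + 1) δ (Q n) v hN hf hK (hQ n) hδ hδ2 hv hr h0 (by
    intro x y
    refine (hl x y).trans (mul_le_mul_of_nonneg_right ?_ (norm_nonneg _))
    have : (0 : ℝ) ≤ n := Nat.cast_nonneg n
    linarith) t ht x y zn hzn.symm
  exact (hanti.antitone (by linarith)).trans h2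

/-- the logarithm is Lipschitz away from `0` -/
theorem abs_log_sub_le {δ a b : ℝ} (hδ : 0 < δ) (ha : δ ≤ a) (hb : δ ≤ b) :
    |Real.log a - Real.log b| ≤ |a - b| / δ := by
  have key : ∀ a b : ℝ, δ ≤ a → δ ≤ b → Real.log a - Real.log b ≤ |a - b| / δ := by
    intro a b ha hb
    have ha0 : 0 < a := lt_of_lt_of_le hδ ha
    have hb0 : 0 < b := lt_of_lt_of_le hδ hb
    rw [← Real.log_div ha0.ne' hb0.ne']
    refine (Real.log_le_sub_one_of_pos (by positivity)).trans ?_
    have h1 : a / b - 1 = (a - b) / b := by field_simp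
    rw [h1]
    calc (a - b) / b ≤ |a - b| / b := by
          apply div_le_div_of_nonneg_right (le_abs_self _) hb0.le
      _ ≤ |a - b| / δ := div_le_div_of_nonneg_left (abs_nonneg _) hδ hb
  rw [abs_le]
  constructor
  · have := key b a hb ha
    rw [abs_sub_comm] at this
    linarith
  · exact key a b ha hb

theorem logit_lip {δ a b : ℝ} (hδ : 0 < δ) (ha : δ ≤ a) (ha' : a ≤ 1 - δ) (hb : δ ≤ b)
    (hb' : b ≤ 1 - δ) :
    |Real.log (a / (1 - a)) - Real.log (b / (1 - b))| ≤ 2 / δ * |a - b| := by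
  rw [Real.log_div (by linarith) (by linarith), Real.log_div (by linarith) (by linarith)]
  have h1 := abs_log_sub_le hδ ha hb
  have h2 := abs_log_sub_le hδ (show δ ≤ 1 - a by linarith) (show δ ≤ 1 - b by linarith)
  have h3 : |1 - a - (1 - b)| = |a - b| := by
    rw [show 1 - a - (1 - b) = -(a - b) by ring, abs_neg]
  rw [h3] at h2
  have h4 : Real.log a - Real.log (1 - a) - (Real.log b - Real.log (1 - b)) =
    (Real.log a - Real.log b) - (Real.log (1 - a) - Real.log (1 - b)) := by ring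
  rw [h4]
  refine (abs_sub _ _).trans ?_
  calc _ ≤ |a - b| / δ + |a - b| / δ := add_le_add h1 h2
    _ = 2 / δ * |a - b| := by ring

/-- continuity of the heat semigroup in time -/
theorem tendsto_P {N : ℕ} {g : E N → ℝ} (hg : AEStronglyMeasurable g volume)
    (hb : ∀ y, |g y| ≤ 1) {t : ℝ} (ht : 0 < t) {s : ℕ → ℝ} (hs : Tendsto s atTop (𝓝 t)) (x : E N) :
    Tendsto (fun n => P (s n) g x) atTop (𝓝 (P t g x)) := by
  have h1 := Pool.Agent.H3.RD.contAt_P (r := 0) (q0 := -t) (M := 1) (by linarith)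
    (h := fun _ => g) (Eventually.of_forall fun _ => hg) (Eventually.of_forall fun _ => hb)
    (fun y => continuousAt_const) x
  have h2 : Tendsto (fun n => -s n) atTop (𝓝 (-t)) := hs.neg
  have h3 := h1.tendsto.comp h2
  have h4 : (fun n => P (s n) g x) = (fun q => P (0 - q) g x) ∘ (fun n => -s n) := by
    funext n
    show P (s n) g x = P (0 - -s n) g x
    rw [zero_sub, neg_neg]
  rw [h4]
  have h5 : P t g x = P (0 - -t) g x := by rw [zero_sub, neg_neg]
  rw [h5]
  exact h3

theorem pf_STEEP (hSTL : T_STL) (hLGS : T_LGS) (hEXS : T_EXS) (hDEP : T_DEP) (hGRAD : T_GRAD)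
    (hSH : T_SH) : T_STEEP := by
  intro N f K Pv v hN hf hK h hv hr t ht x y z hz
  obtain ⟨A, hA, hA1, _⟩ := hGRAD N
  have hm0 : AEStronglyMeasurable (v 0) volume := hv.meas.aestronglyMeasurable
  have hb0 : ∀ y, |v 0 y| ≤ 1 := fun y => abs_le.2 ⟨by linarith [(hr 0 le_rfl y).1], (hr 0 le_rfl y).2⟩
  -- the approximations
  have hδ : ∀ n : ℕ, 0 < 1 / ((n : ℝ) + 3) ∧ 1 / ((n : ℝ) + 3) < 1 / 2 := by
    intro n
    have : (0 : ℝ) ≤ n := Nat.cast_nonneg n
    constructor
    · positivity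
    · apply one_div_lt_one_div_of_lt <;> linarith
  have hs : ∀ n : ℕ, 0 < 1 / ((n : ℝ) + 1) := fun n => by positivity
  have hP0 : ∀ (n : ℕ) (x : E N), 0 ≤ P (1 / ((n : ℝ) + 1)) (v 0) x :=
    fun n x => Pool.Agent.H29.TF.P_nonneg (hs n).le (fun y => (hr 0 le_rfl y).1) x
  have hP1 : ∀ (n : ℕ) (x : E N), P (1 / ((n : ℝ) + 1)) (v 0) x ≤ 1 :=
    fun n x => (le_abs_self _).trans (Pool.Agent.H29.TF.abs_P_le (hs n) hb0 x)
  have hgb : ∀ (n : ℕ) (x : E N), 1 / ((n : ℝ) + 3) ≤
      1 / ((n : ℝ) + 3) + (1 - 2 * (1 / ((n : ℝ) + 3))) * P (1 / ((n : ℝ) + 1)) (v 0) x ∧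
      1 / ((n : ℝ) + 3) + (1 - 2 * (1 / ((n : ℝ) + 3))) * P (1 / ((n : ℝ) + 1)) (v 0) x ≤
        1 - 1 / ((n : ℝ) + 3) := by
    intro n x
    have h1 := hδ n
    have h2 := hP0 n x
    have h3 := hP1 n x
    constructor <;> nlinarith
  have hex : ∀ n : ℕ, ∃ w : ℝ → E N → ℝ, Mild f 0 w ∧ Rng 0 w ∧ w 0 = fun x =>
      1 / ((n : ℝ) + 3) + (1 - 2 * (1 / ((n : ℝ) + 3))) * P (1 / ((n : ℝ) + 1)) (v 0) x := by
    intro n
    refine hEXS N f K _ hK ?_ ?_
    · exact ((Pool.Agent.H29.TF.continuous_P (hs n) hm0 hb0).measurable.const_mul _).const_add _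
    · intro x
      have h1 := hδ n
      have h2 := hgb n x
      exact ⟨h1.1.le.trans h2.1, h2.2.trans (by linarith [h1.1])⟩
  choose w hw1 hw2 hw3 using hex
  have hconv : ∀ x, Tendsto (fun n => w n t x) atTop (𝓝 (v t x)) := by
    refine hDEP N f K w v hK (fun n => ⟨hw1 n, hw2 n⟩) hv hr ?_ t ht
    intro t ht x
    have h1 : ∀ n, P t (w n 0) x = 1 / ((n : ℝ) + 3) +
        (1 - 2 * (1 / ((n : ℝ) + 3))) * P (t + 1 / ((n : ℝ) + 1)) (v 0) x := by
      intro n
      have h2 : Integrable (fun y => hk t (x - y) *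
          ((1 - 2 * (1 / ((n : ℝ) + 3))) * P (1 / ((n : ℝ) + 1)) (v 0) y)) :=
        Pool.Agent.H29.TF.integrable_hk_mul ht
          ((Pool.Agent.H29.TF.continuous_P (hs n) hm0 hb0).aestronglyMeasurable.const_mul _)
          (C := 1) (by
            intro y
            have h1 := hδ n
            have h2 := hP0 n y
            have h3 := hP1 n y
            rw [abs_le]
            constructor <;> nlinarith) x
      have h3 : Integrable (fun y : E N => hk t (x - y) * (1 / ((n : ℝ) + 3))) :=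
        Pool.Agent.H29.TF.integrable_hk_mul ht aestronglyMeasurable_const
          (C := |1 / ((n : ℝ) + 3)|) (fun _ => le_rfl) x
      rw [hw3 n, Pool.Agent.H29.TF.P_add x h3 h2, Pool.Agent.H29.TF.P_const ht,
        Pool.Agent.H29.TF.P_const_mul, Pool.Agent.H29.TF.P_P ht (hs n) hm0 hb0]
    have h2 : Tendsto (fun n : ℕ => 1 / ((n : ℝ) + 3)) atTop (𝓝 0) := by
      have h3 : Tendsto (fun n : ℕ => (n : ℝ) + 3) atTop atTop :=
        tendsto_atTop_add_const_right _ _ tendsto_natCast_atTop_atTop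
      simp only [one_div]
      exact h3.inv_tendsto_atTop
    have h3 : Tendsto (fun n : ℕ => t + 1 / ((n : ℝ) + 1)) atTop (𝓝 t) := by
      have h4 := (tendsto_one_div_add_atTop_nhds_zero_nat (𝕜 := ℝ)).const_add t
      rwa [add_zero] at h4
    have h4 := tendsto_P hm0 hb0 ht h3 x
    have h5 := h2.add (((h2.const_mul 2).const_sub 1).mul h4)
    simp only [mul_zero, sub_zero, one_mul, zero_add] at h5
    exact h5.congr (fun n => (h1 n).symm)
  -- conclusion for the approximations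
  have hcore : ∀ n z', Pv t z' < w n t x → Pv t (z' + dist x y) ≤ w n t y := by
    intro n z' hz'
    refine core hSTL hLGS hDEP hSH hN hf hK h (hw1 n) (hw2 n) (hδ n).1 (hδ n).2 ?_
      (k0 := 2 / (1 / ((n : ℝ) + 3)) * (A * 1 / √(1 / ((n : ℝ) + 1)))) (by positivity) ?_
      ht x y z' hz'
    · intro x
      rw [hw3 n]
      exact hgb n x
    · intro x y
      rw [hw3 n]
      have h1 := hgb n x
      have h2 := hgb n y
      refine (logit_lip (hδ n).1 h1.1 h1.2 h2.1 h2.2).trans ?_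
      rw [mul_assoc]
      apply mul_le_mul_of_nonneg_left _ (by positivity)
      have h3 : 1 / ((n : ℝ) + 3) + (1 - 2 * (1 / ((n : ℝ) + 3))) * P (1 / ((n : ℝ) + 1)) (v 0) x -
          (1 / ((n : ℝ) + 3) + (1 - 2 * (1 / ((n : ℝ) + 3))) * P (1 / ((n : ℝ) + 1)) (v 0) y) =
          (1 - 2 * (1 / ((n : ℝ) + 3))) * (P (1 / ((n : ℝ) + 1)) (v 0) x -
            P (1 / ((n : ℝ) + 1)) (v 0) y) := by ring
      rw [h3, abs_mul]
      have h4 := hδ n
      refine (mul_le_of_le_one_left (abs_nonneg _) ?_).trans (hA1 _ (hs n) (v 0) 1 hm0 hb0 x y)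
      rw [abs_le]
      constructor <;> linarith [h4.1, h4.2]
  -- limit
  have hcont : Continuous (Pv t) := (h.c2 t ht).continuous
  have hanti := dec_anti (h.neg t ht)
  have h1 : ∀ ε > 0, Pv t (z + ε + dist x y) ≤ v t y := by
    intro ε hε
    refine ge_of_tendsto (hconv y) ?_
    have h2 : Pv t (z + ε) < v t x := by
      rw [hz]
      exact hanti (by linarith)
    filter_upwards [(hconv x).eventually (lt_mem_nhds h2)] with n hn
    exact hcore n (z + ε) hn
  have h2 : Tendsto (fun ε => Pv t (z + ε + dist x y)) (𝓝[>] 0) (𝓝 (Pv t (z + dist x y))) := by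
    have h3 : Tendsto (fun ε => Pv t (z + ε + dist x y)) (𝓝 0) (𝓝 (Pv t (z + 0 + dist x y))) :=
      (hcont.comp (by fun_prop : Continuous fun ε : ℝ => z + ε + dist x y)).tendsto 0
    rw [add_zero] at h3
    exact h3.mono_left nhdsWithin_le_nhds
  refine le_of_tendsto h2 ?_
  filter_upwards [self_mem_nhdsWithin] with ε hε
  exact h1 ε hε

end Pool.Agent.H29.RF
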